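import Mathlib
import Pool.Agent.Q210.BW.Bound

/-!
# No linear cover time on regular graphs of growing degree with vanishing bias
-/

open Filter Topology
open scoped ENNReal

namespace Pool.Agent.Results.MP_763ca5_pr.NoLinearCover

open Pool.Agent.Q210.BW

noncomputable section

/-- A strategy: a choice of a neighbour of the current vertex `x`, depending on the list `h` of the
earlier vertices (hence also on the time). -/
def IsStrategy {V : Type} (G : SimpleGraph V) (σ : V → List V → V) : Prop :=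
  ∀ x h, G.Adj x (σ x h)

open Classical in
/-- Indicator that some vertex has not been visited yet. -/
def uncovered {V : Type} (x : V) (h : List V) : ℝ := if ∀ v, v = x ∨ v ∈ h then 0 else 1

/-- The expected cover time of the `ε`-biased walk with strategy `σ` started at `x`, as the sum over
`t` of the probability that the walk has not covered the graph after `t` steps. -/
def expCover {V : Type} [Fintype V] (G : SimpleGraph V) (ε : ℝ) (σ : V → List V → V) (x : V) :
    ℝ≥0∞ := ∑' t : ℕ, ENNReal.ofReal (Ex G ε σ uncovered t x [])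

/-- The `ε`-biased cover time. -/
def tcov {V : Type} [Fintype V] (G : SimpleGraph V) (ε : ℝ) : ℝ≥0∞ :=
  ⨆ x : V, ⨅ σ : V → List V → V, ⨅ _ : IsStrategy G σ, expCover G ε σ x

theorem exists_deg (C : ℝ) (L : ℝ) (hL : 0 < L) : ∃ d0 : ℕ, ∀ d : ℕ, d0 ≤ d →
    4 ≤ d ∧ 2 * L ≤ d ∧ 768 * C * L ^ 2 ≤ d ∧
    8 * L * d * Real.exp (-(3 * Real.exp 1 * d / L)) ≤ 1 / 4 := by
  have hc : 0 < 3 * Real.exp 1 / L := by positivity
  have h1 := tendsto_rpow_mul_exp_neg_mul_atTop_nhds_zero 1 _ hc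
  have h2 : Tendsto (fun d : ℕ => 8 * L * ((d : ℝ) ^ (1 : ℝ) *
      Real.exp (-(3 * Real.exp 1 / L) * d))) atTop (𝓝 (8 * L * 0)) :=
    (h1.comp tendsto_natCast_atTop_atTop).const_mul (8 * L)
  rw [mul_zero] at h2
  have h3 := h2.eventually (gt_mem_nhds (show (0 : ℝ) < 1 / 4 by norm_num))
  have h4 := tendsto_natCast_atTop_atTop (R := ℝ)
  obtain ⟨d0, hd0⟩ := eventually_atTop.mp ((eventually_ge_atTop 4).and
    ((h4.eventually_ge_atTop (2 * L)).and ((h4.eventually_ge_atTop (768 * C * L ^ 2)).and h3)))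
  refine ⟨d0, fun d hd => ?_⟩
  obtain ⟨a1, a2, a3, a4⟩ := hd0 d hd
  refine ⟨a1, a2, a3, ?_⟩
  have h5 : 8 * L * d * Real.exp (-(3 * Real.exp 1 * d / L)) =
      8 * L * ((d : ℝ) ^ (1 : ℝ) * Real.exp (-(3 * Real.exp 1 / L) * d)) := by
    rw [Real.rpow_one, mul_assoc (8 * L)]
    congr 3
    ring
  rw [h5]
  exact a4.le

theorem uniform (C : ℝ) (hC : 1 ≤ C) : ∃ d0 : ℕ, ∃ ε0 : ℝ, 0 < ε0 ∧
    ∀ (n d : ℕ) (G : SimpleGraph (Fin n)) (ε : ℝ), G.Connected → (∀ x, (nb G x).card = d) →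
      d0 ≤ d → 0 < ε → ε ≤ ε0 → ENNReal.ofReal (C * n) ≤ tcov G ε := by
  set L : ℝ := Real.exp (480 * C) with hLdef
  have hL1 : 1 ≤ L := Real.one_le_exp (by linarith)
  have hL0 : 0 < L := by linarith
  have hlog : Real.log L = 480 * C := Real.log_exp _
  obtain ⟨d0, hd0⟩ := exists_deg C L hL0
  refine ⟨d0, 1 / (4 * L), by positivity, fun n d G ε hconn hreg hd hε0 hε1 => ?_⟩
  obtain ⟨b1, b2, b3, b4⟩ := hd0 d hd
  have hd4 : (4 : ℝ) ≤ d := by exact_mod_cast b1
  have hdpos : (0 : ℝ) < d := by linarith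
  obtain ⟨x⟩ := hconn.nonempty
  -- `d < n`
  have hdn : d < n := by
    classical
    have h1 : nb G x ⊆ Finset.univ.erase x := by
      intro y hy
      rw [Finset.mem_erase]
      refine ⟨?_, Finset.mem_univ _⟩
      rintro rfl
      exact G.loopless.irrefl _ (Finset.mem_filter.mp hy).2
    have h2 := Finset.card_le_card h1
    rw [hreg, Finset.card_erase_of_mem (Finset.mem_univ _), Finset.card_univ, Fintype.card_fin] at h2
    omega
  have hdn' : (d : ℝ) < n := by exact_mod_cast hdn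
  have hn0 : (0 : ℝ) < n := by linarith
  have hn1 : (1 : ℝ) ≤ n := by linarith
  have hε2 : ε ≤ 1 / 4 := hε1.trans (by
    rw [div_le_div_iff₀ (by positivity) (by norm_num)]; linarith)
  have hd2 : 1 / (d : ℝ) ≤ 1 / 4 := by
    rw [div_le_div_iff₀ hdpos (by norm_num)]; linarith
  have H : Std G ε L d := ⟨hε0.le, hreg, by omega, by linarith, hL1⟩
  -- the choice of `k`
  set k : ℕ := ⌈3 * Real.exp 1 * d / L⌉₊ with hk
  have hkpos : 0 < 3 * Real.exp 1 * d / L := by positivity
  have hk0 : k ≠ 0 := (Nat.ceil_pos.mpr hkpos).ne'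
  have hk1 : 3 * Real.exp 1 * d / L ≤ k := Nat.le_ceil _
  have hk2 : (k : ℝ) < 3 * Real.exp 1 * d / L + 1 := Nat.ceil_lt_add_one hkpos.le
  have hkd : (k : ℝ) / d + ε < 10 / L := by
    have he : Real.exp 1 < 3 := Real.exp_one_lt_three
    have h1 : (k : ℝ) / d < 3 * Real.exp 1 / L + 1 / d := by
      rw [div_lt_iff₀ hdpos]
      have : (3 * Real.exp 1 / L + 1 / d) * d = 3 * Real.exp 1 * d / L + 1 := by
        field_simp
      rw [this]; exact hk2
    have h2 : 1 / (d : ℝ) ≤ 1 / (2 * L) := one_div_le_one_div_of_le (by positivity) b2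
    have h3 : ε ≤ 1 / (2 * L) := hε1.trans (one_div_le_one_div_of_le (by positivity) (by linarith))
    have h4 : 3 * Real.exp 1 / L < 9 / L := by
      rw [div_lt_div_iff_of_pos_right hL0]; linarith
    have h5 : 1 / (2 * L) + 1 / (2 * L) = 1 / L := by field_simp; norm_num
    have h6 : 9 / L + 1 / L = 10 / L := by ring
    linarith
  -- probability bound
  set T : ℕ := ⌈2 * C * n⌉₊ with hT
  have hT1 : 2 * C * n ≤ T := Nat.le_ceil _
  have hT2 : (T : ℝ) ≤ 3 * C * n := by
    have h1 : (T : ℝ) < 2 * C * n + 1 := Nat.ceil_lt_add_one (by positivity)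
    nlinarith
  have hprob : ∀ σ : Fin n → List (Fin n) → Fin n, ∀ y : Fin n, ∀ t : ℕ, t ≤ T →
      Ex G ε σ cov t y [] ≤ 1 / 2 := by
    intro σ y t ht
    have ht' : (t : ℝ) ≤ 3 * C * n := (by exact_mod_cast ht : (t : ℝ) ≤ T).trans hT2
    have h1 := prob_cov σ H (n := n) (Fintype.card_fin n) (by omega) hk0 (T := t) ?_ y
    · have h2 : 64 * L ^ 2 * t / (n : ℝ) ^ 2 ≤ 1 / 4 := by
        rw [div_le_iff₀ (by positivity)]
        have h3 : 768 * C * L ^ 2 ≤ n := b3.trans hdn'.le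
        have h4 : 64 * L ^ 2 * t ≤ 64 * L ^ 2 * (3 * C * n) :=
          mul_le_mul_of_nonneg_left ht' (by positivity)
        nlinarith
      have h3 : 8 * L * d * (d.choose k) / L ^ k ≤ 1 / 4 := by
        have h4 := choose_bound hk0 hL0 hk1
        have h5 : Real.exp (-(k : ℝ)) ≤ Real.exp (-(3 * Real.exp 1 * d / L)) :=
          Real.exp_le_exp.mpr (by linarith)
        calc 8 * L * d * (d.choose k) / L ^ k = 8 * L * d * ((d.choose k) / L ^ k) := by ring
          _ ≤ 8 * L * d * Real.exp (-(3 * Real.exp 1 * d / L)) :=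
              mul_le_mul_of_nonneg_left (h4.trans h5) (by positivity)
          _ ≤ 1 / 4 := b4
      linarith
    · rw [hlog]
      have h2 : 480 * C * n / (16 * L) = 3 * C * n * (10 / L) := by field_simp; norm_num
      rw [h2]
      have h3 : 0 ≤ (k : ℝ) / d + ε := by positivity
      have h4 : (t : ℝ) * ((k : ℝ) / d + ε) ≤ 3 * C * n * ((k : ℝ) / d + ε) :=
        mul_le_mul_of_nonneg_right ht' h3
      have h5 : 3 * C * n * ((k : ℝ) / d + ε) < 3 * C * n * (10 / L) :=
        mul_lt_mul_of_pos_left hkd (by positivity)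
      linarith
  have hunc : ∀ σ : Fin n → List (Fin n) → Fin n, ∀ y : Fin n, ∀ t : ℕ, t ≤ T →
      1 / 2 ≤ Ex G ε σ uncovered t y [] := by
    intro σ y t ht
    have h1 := hprob σ y t ht
    have h2 : (uncovered : Fin n → List (Fin n) → ℝ) = fun y l => 1 + (-1) * cov y l := by
      funext y l
      unfold uncovered cov
      split_ifs <;> norm_num
    have h3 := Ex_add (G := G) (ε := ε) σ (fun _ _ => 1) (fun y l => (-1) * cov y l) t y []
    have h4 := Ex_mul (G := G) (ε := ε) σ (-1) cov t y []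
    have h5 := Ex_const (G := G) (ε := ε) σ H.ne 1 t y []
    rw [h2, h3, h4, h5]
    linarith
  refine le_iSup_of_le x (le_iInf fun σ => le_iInf fun _ => ?_)
  unfold expCover
  calc ENNReal.ofReal (C * n) ≤ ENNReal.ofReal (∑ _t ∈ Finset.range T, (1 / 2 : ℝ)) := by
        apply ENNReal.ofReal_le_ofReal
        rw [Finset.sum_const, Finset.card_range, nsmul_eq_mul]
        linarith
    _ = ∑ _t ∈ Finset.range T, ENNReal.ofReal (1 / 2) :=
        ENNReal.ofReal_sum_of_nonneg fun _ _ => by norm_num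
    _ ≤ ∑ t ∈ Finset.range T, ENNReal.ofReal (Ex G ε σ uncovered t x []) :=
        Finset.sum_le_sum fun t ht => ENNReal.ofReal_le_ofReal
          (hunc σ x t (Finset.mem_range.mp ht).le)
    _ ≤ ∑' t : ℕ, ENNReal.ofReal (Ex G ε σ uncovered t x []) := ENNReal.sum_le_tsum _

/-- Uniform superlinearity: for every `C` there are `d0` and `ε0 > 0` such that every connected
`d`-regular graph on `n` vertices with `d ≥ d0` and every `ε ∈ (0, ε0]` has `ε`-biased cover time at
least `C n`. Consequently there is no sequence of connected `d_k`-regular graphs with `d_k → ∞` and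
biases `ε_k → 0` with linearly bounded biased cover times. -/
theorem result :
    (∀ C : ℝ, ∃ d0 : ℕ, ∃ ε0 : ℝ, 0 < ε0 ∧
      ∀ (n d : ℕ) (G : SimpleGraph (Fin n)) (ε : ℝ), G.Connected → (∀ x, (nb G x).card = d) →
        d0 ≤ d → 0 < ε → ε ≤ ε0 → ENNReal.ofReal (C * n) ≤ tcov G ε) ∧
    ¬ ∃ (n d : ℕ → ℕ) (G : (k : ℕ) → SimpleGraph (Fin (n k))) (ε : ℕ → ℝ) (C : ℝ),
      (∀ k, (G k).Connected ∧ (∀ x, (nb (G k) x).card = d k) ∧ 0 < ε k ∧ ε k ≤ 1) ∧
      Tendsto d atTop atTop ∧ Tendsto ε atTop (𝓝 0) ∧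
      ∀ k, tcov (G k) (ε k) ≤ ENNReal.ofReal (C * n k) := by
  constructor
  · intro C
    obtain ⟨d0, ε0, hε0, h⟩ := uniform (max C 1) (le_max_right _ _)
    refine ⟨d0, ε0, hε0, fun n d G ε h1 h2 h3 h4 h5 => le_trans ?_ (h n d G ε h1 h2 h3 h4 h5)⟩
    exact ENNReal.ofReal_le_ofReal
      (mul_le_mul_of_nonneg_right (le_max_left _ _) (Nat.cast_nonneg _))
  · rintro ⟨n, d, G, ε, C, h1, hd, hε, hC⟩
    obtain ⟨d0, ε0, hε0, h⟩ := uniform (max C 0 + 1) (by linarith [le_max_right C 0])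
    obtain ⟨k, hk1, hk2⟩ := ((hd.eventually_ge_atTop d0).and
      (hε.eventually (ge_mem_nhds hε0))).exists
    obtain ⟨a1, a2, a3, _⟩ := h1 k
    have h2 := (h (n k) (d k) (G k) (ε k) a1 a2 hk1 a3 hk2).trans (hC k)
    obtain ⟨x⟩ := a1.nonempty
    have hn : (0 : ℝ) < n k := by
      have : 0 < n k := x.pos
      exact_mod_cast this
    have h3 : 0 < (max C 0 + 1) * (n k : ℝ) := by
      have := le_max_right C 0
      positivity
    rw [ENNReal.ofReal_le_ofReal_iff'] at h2
    rcases h2 with h2 | h2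
    · have := le_max_left C 0
      nlinarith
    · linarith

end

end Pool.Agent.Results.MP_763ca5_pr.NoLinearCover
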